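import Mathlib
import Pool.Agent.Helper929.Pfaffian
import Pool.Agent.N689.OsasmDefs
import Pool.Agent.N689.OsasmMat

set_option autoImplicit false

namespace Pool.Agent.Results.MP_d12cfa_co.PfaffianIdentity

open Pool.Agent.Helper929 Pool.Agent.N689.OsasmPf

/-- The Pfaffian identity to which the product formula for the number of off-diagonally
symmetric alternating sign matrices of order `2 n + 1` is equivalent: the Pfaffians of the two
`(2 n + 2) × (2 n + 2)` skew-symmetric arrays with entry `c a b` (the coefficient of `x^a y^b` in
`(y - x) / ((1 - x y) (1 - x - y))`) for `a < b ≤ 2 n`, and last column `(-1)^a` in the first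
and `((-1)^a + 2^a) / 2` in the second, coincide. -/
theorem result (n : ℕ) :
    pf (2 * n + 2) (arr (2 * n + 2) (fun a => (-1) ^ a)) =
      pf (2 * n + 2) (arr (2 * n + 2) (fun a => ((-1) ^ a + 2 ^ a) / 2)) :=
  pf_avg n

end Pool.Agent.Results.MP_d12cfa_co.PfaffianIdentity
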